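import Pool.Agent.H60.CM.Targets

/-!
# Stable cmc surfaces spanning a circle (MP_d9d403_gt): row FDZ
-/

set_option autoImplicit false

open Set Function MeasureTheory Filter Topology
open scoped Manifold ContDiff Matrix
open Pool.Agent.H60.CM

namespace Pool.Agent.H13.CM

/-- the first integral, in coordinates -/
theorem fdz_coord (a b c d e f p q r a' b' c' d' e' f' H u v l : ℝ) (hl : l ≠ 0)
    (hl' : l = (b * f - c * e) * p + (c * d - a * f) * q + (a * e - b * d) * r)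
    (un : p * p + q * q + r * r = 1)
    (nx0 : p * a + q * b + r * c = 0) (nx1 : p * d + q * e + r * f = 0)
    (nn0 : p * a' + q * b' + r * c' = 0)
    (sy : a * d' + b * e' + c * f' = d * a' + e * b' + f * c')
    (c0 : (b' * f - c' * e) + (b * f' - c * e') = -2 * H * (b * f - c * e))
    (c1 : (c' * d - a' * f) + (c * d' - a * f') = -2 * H * (c * d - a * f))
    (c2 : (a' * e - b' * d) + (a * e' - b * d') = -2 * H * (a * e - b * d))
    (h1 : -v * p + u * q = 0) (h2 : -b * p + a * q + (-v * a' + u * b') = 0)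
    (h3 : -e * p + d * q + (-v * d' + u * e') = 0) :
    a * p + u * a' + b * q + v * b' + 2 * H * (u * a + v * b) = 0 := by
  have N0 : b * f - c * e = l * p := by
    rw [hl']
    linear_combination (r * b - q * c) * nx1 + (q * f - r * e) * nx0 - (b * f - c * e) * un
  have N1 : c * d - a * f = l * q := by
    rw [hl']
    linear_combination (p * c - r * a) * nx1 + (r * d - p * f) * nx0 - (c * d - a * f) * un
  have N2 : a * e - b * d = l * r := by
    rw [hl']
    linear_combination (q * a - p * b) * nx1 + (p * e - q * d) * nx0 - (a * e - b * d) * un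
  obtain ⟨E, hE⟩ : ∃ E, E = a * a + b * b + c * c := ⟨_, rfl⟩
  obtain ⟨G, hG⟩ : ∃ G, G = a * d + b * e + c * f := ⟨_, rfl⟩
  obtain ⟨s0, hs0⟩ : ∃ s, s = a * a' + b * b' + c * c' := ⟨_, rfl⟩
  obtain ⟨s1, hs1⟩ : ∃ s, s = d * a' + e * b' + f * c' := ⟨_, rfl⟩
  -- `N × X0 = E X1 - G X0 = l n × X0`
  have M0 : E * d - G * a = l * (q * c - r * b) := by
    rw [hE, hG]
    linear_combination c * N1 - b * N2
  have M1 : E * e - G * b = l * (r * a - p * c) := by
    rw [hE, hG]
    linear_combination a * N2 - c * N0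
  have M2 : E * f - G * c = l * (p * b - q * a) := by
    rw [hE, hG]
    linear_combination b * N0 - a * N1
  have T0 : E * d' - G * a' = -2 * H * (l * (q * c - r * b)) - d * s0 + a * s1 := by
    rw [← M0, hE, hG, hs0, hs1]
    linear_combination c * c1 - b * c2 + a * sy
  have T1 : E * e' - G * b' = -2 * H * (l * (r * a - p * c)) - e * s0 + b * s1 := by
    rw [← M1, hE, hG, hs0, hs1]
    linear_combination a * c2 - c * c0 + b * sy
  have T2 : E * f' - G * c' = -2 * H * (l * (p * b - q * a)) - f * s0 + c * s1 := by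
    rw [← M2, hE, hG, hs0, hs1]
    linear_combination b * c0 - a * c1 + c * sy
  -- `n0 × N = X0 s1 - X1 s0 = l n0 × n`
  have K0 : a * s1 - d * s0 = l * (b' * r - c' * q) := by
    rw [hs0, hs1]
    linear_combination b' * N2 - c' * N1
  have K1 : b * s1 - e * s0 = l * (c' * p - a' * r) := by
    rw [hs0, hs1]
    linear_combination c' * N0 - a' * N2
  have K2 : c * s1 - f * s0 = l * (a' * q - b' * p) := by
    rw [hs0, hs1]
    linear_combination a' * N1 - b' * N0
  -- `l (n0 + 2 H X0) = n × T`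
  have S0 : l * (a' + 2 * H * a) = q * (E * f' - G * c') - r * (E * e' - G * b') := by
    rw [T1, T2]
    linear_combination (-q) * K2 + r * K1 + (-(l * (a' + 2 * H * a))) * un + l * p * nn0 +
      2 * H * l * p * nx0
  have S1 : l * (b' + 2 * H * b) = r * (E * d' - G * a') - p * (E * f' - G * c') := by
    rw [T0, T2]
    linear_combination (-r) * K0 + p * K2 + (-(l * (b' + 2 * H * b))) * un + l * q * nn0 +
      2 * H * l * q * nx0
  have key : l * (a * p + u * a' + b * q + v * b' + 2 * H * (u * a + v * b)) = 0 := by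
    have k1 : l * (a * p + u * a' + b * q + v * b' + 2 * H * (u * a + v * b)) =
        l * (a * p + b * q) + u * (l * (a' + 2 * H * a)) + v * (l * (b' + 2 * H * b)) := by ring
    rw [k1, S0, S1]
    have k2 : E * e - G * b = l * (r * a - p * c) := M1
    have k3 : E * d - G * a = l * (q * c - r * b) := M0
    linear_combination (E * f' - G * c') * h1 - r * E * h3 + r * G * h2 - r * p * k2 +
      r * q * k3 + l * (1 - r * r) * nx0 + l * r * c * un
  exact (mul_eq_zero.1 key).resolve_left hl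

theorem fdz_one (X0 X1 n n0 n1 : V3) (H : ℝ) (h : Frm X0 X1 n n0 n1 H) (c : V3)
    (h1 : (e3 ⨯₃ c) ⬝ᵥ n = 0) (h2 : (e3 ⨯₃ X0) ⬝ᵥ n + (e3 ⨯₃ c) ⬝ᵥ n0 = 0)
    (h3 : (e3 ⨯₃ X1) ⬝ᵥ n + (e3 ⨯₃ c) ⬝ᵥ n1 = 0) :
    X0 0 * n 0 + c 0 * n0 0 + X0 1 * n 1 + c 1 * n0 1 + 2 * H * (c 0 * X0 0 + c 1 * X0 1) = 0 := by
  obtain ⟨imm, un, nx0, nx1, nn0, nn1, sy, cmc⟩ := h
  have c0 := congrFun cmc 0
  have c1 := congrFun cmc 1
  have c2 := congrFun cmc 2
  simp only [e3, cross_apply, dotProduct, Fin.sum_univ_three, Matrix.cons_val_zero,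
    Matrix.cons_val_one, Matrix.cons_val, Pi.add_apply, Pi.smul_apply, smul_eq_mul] at *
  obtain ⟨l, hl⟩ : ∃ l, l = (X0 1 * X1 2 - X0 2 * X1 1) * n 0 +
    (X0 2 * X1 0 - X0 0 * X1 2) * n 1 + (X0 0 * X1 1 - X0 1 * X1 0) * n 2 := ⟨_, rfl⟩
  have hl0 : l ≠ 0 := by
    intro h0
    apply imm
    have N0 : X0 1 * X1 2 - X0 2 * X1 1 = l * n 0 := by
      rw [hl]
      linear_combination (n 2 * X0 1 - n 1 * X0 2) * nx1 + (n 1 * X1 2 - n 2 * X1 1) * nx0 -
        (X0 1 * X1 2 - X0 2 * X1 1) * un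
    have N1 : X0 2 * X1 0 - X0 0 * X1 2 = l * n 1 := by
      rw [hl]
      linear_combination (n 0 * X0 2 - n 2 * X0 0) * nx1 + (n 2 * X1 0 - n 0 * X1 2) * nx0 -
        (X0 2 * X1 0 - X0 0 * X1 2) * un
    have N2 : X0 0 * X1 1 - X0 1 * X1 0 = l * n 2 := by
      rw [hl]
      linear_combination (n 1 * X0 0 - n 0 * X0 1) * nx1 + (n 0 * X1 1 - n 1 * X1 0) * nx0 -
        (X0 0 * X1 1 - X0 1 * X1 0) * un
    rw [N0, N1, N2, h0]
    ext i
    fin_cases i <;> simp
  refine fdz_coord (X0 0) (X0 1) (X0 2) (X1 0) (X1 1) (X1 2) (n 0) (n 1) (n 2) (n0 0) (n0 1) (n0 2)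
    (n1 0) (n1 1) (n1 2) H (c 0) (c 1) l hl0 hl un nx0 nx1 nn0 ?_ ?_ ?_ ?_ ?_ ?_ ?_
  · linear_combination sy
  · linear_combination c0
  · linear_combination c1
  · linear_combination c2
  · linear_combination h1
  · linear_combination h2
  · linear_combination h3

theorem pf_FDZ : T_FDZ := by
  intro X0 X1 n n0 n1 H h c h1 h2 h3
  refine ⟨fdz_one X0 X1 n n0 n1 H h c h1 h2 h3, fdz_one X1 X0 n n1 n0 H ?_ c h1 h3 h2⟩
  obtain ⟨imm, un, nx0, nx1, nn0, nn1, sy, cmc⟩ := h
  refine ⟨?_, un, nx1, nx0, nn1, nn0, sy.symm, ?_⟩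
  · intro h0
    apply imm
    rw [← cross_anticomm, h0, neg_zero]
  · have h4 : n1 ⨯₃ X0 + X1 ⨯₃ n0 = -(n0 ⨯₃ X1 + X0 ⨯₃ n1) := by
      rw [← cross_anticomm n1 X0, ← cross_anticomm X1 n0]
      abel
    rw [h4, cmc, ← cross_anticomm X1 X0, smul_neg, neg_neg]

end Pool.Agent.H13.CM
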