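import Pool.Agent.H88.CM.Targets

/-!
# MP_43af95_an, board `clm_modules`, row ITCS: compositions are nearly affine on small balls
-/

set_option autoImplicit false

open Set Function Topology Metric Filter
open scoped Manifold
open Pool.Agent.H88.CL Pool.Agent.H88.CM

namespace Pool.Agent.H13.CM

theorem lip_fderiv_cmp (h : T_ITAS) (d : ℕ) (L : ℝ) (Φ Φ' : ℕ → E d → E d) (hc : CfgS d L Φ Φ')
    (l : ℕ) : ∀ x y, ‖fderiv ℝ (Cmp Φ l) x - fderiv ℝ (Cmp Φ l) y‖ ≤ L ^ (3 * l) * ‖x - y‖ := by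
  have hL2 := hc.two
  have hL1 : 1 ≤ L := by linarith
  have hL0 : 0 < L := by linarith
  induction l with
  | zero =>
    intro x y
    change ‖fderiv ℝ (id : E d → E d) x - fderiv ℝ (id : E d → E d) y‖ ≤ L ^ (3 * 0) * ‖x - y‖
    rw [fderiv_id, fderiv_id, sub_self, norm_zero]
    positivity
  | succ l ih =>
    intro x y
    obtain ⟨hsm, hb, hl, -, -⟩ := h d L Φ Φ' hc l
    have hd : Differentiable ℝ (Cmp Φ l) := hsm.differentiable (by norm_num)
    have hF : Differentiable ℝ (Φ l) := (hc.c2 l).differentiable (by norm_num)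
    have hcomp : ∀ z, fderiv ℝ (Cmp Φ (l + 1)) z =
        (fderiv ℝ (Φ l) (Cmp Φ l z)).comp (fderiv ℝ (Cmp Φ l) z) := by
      intro z
      exact fderiv_comp z (hF _) (hd z)
    have hsplit : fderiv ℝ (Cmp Φ (l + 1)) x - fderiv ℝ (Cmp Φ (l + 1)) y =
        (fderiv ℝ (Φ l) ((Cmp Φ l) x) - fderiv ℝ (Φ l) ((Cmp Φ l) y)).comp (fderiv ℝ (Cmp Φ l) x) +
        (fderiv ℝ (Φ l) ((Cmp Φ l) y)).comp (fderiv ℝ (Cmp Φ l) x - fderiv ℝ (Cmp Φ l) y) := by
      rw [hcomp, hcomp, ContinuousLinearMap.sub_comp, ContinuousLinearMap.comp_sub]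
      abel
    have h1 : ‖(fderiv ℝ (Φ l) ((Cmp Φ l) x) - fderiv ℝ (Φ l) ((Cmp Φ l) y)).comp (fderiv ℝ (Cmp Φ l) x)‖ ≤
        L ^ (2 * l + 1) * ‖x - y‖ := by
      refine (ContinuousLinearMap.opNorm_comp_le _ _).trans ?_
      have h2 : ‖fderiv ℝ (Φ l) ((Cmp Φ l) x) - fderiv ℝ (Φ l) ((Cmp Φ l) y)‖ ≤ L * (L ^ l * ‖x - y‖) :=
        (hc.lp l _ _).trans (mul_le_mul_of_nonneg_left (hl x y) hL0.le)
      calc _ ≤ (L * (L ^ l * ‖x - y‖)) * L ^ l :=
            mul_le_mul h2 (hb x) (norm_nonneg _) (by positivity)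
        _ = L ^ (2 * l + 1) * ‖x - y‖ := by ring
    have h3 : ‖(fderiv ℝ (Φ l) ((Cmp Φ l) y)).comp (fderiv ℝ (Cmp Φ l) x - fderiv ℝ (Cmp Φ l) y)‖ ≤
        L ^ (3 * l + 1) * ‖x - y‖ := by
      refine (ContinuousLinearMap.opNorm_comp_le _ _).trans ?_
      calc _ ≤ L * (L ^ (3 * l) * ‖x - y‖) :=
            mul_le_mul (hc.b l _) (ih x y) (norm_nonneg _) hL0.le
        _ = L ^ (3 * l + 1) * ‖x - y‖ := by ring
    have h4 : L ^ (2 * l + 1) ≤ L ^ (3 * l + 1) := pow_le_pow_right₀ hL1 (by omega)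
    have h5 : L ^ (3 * l + 1) + L ^ (3 * l + 1) ≤ L ^ (3 * l + 2) := by
      have h6 : L ^ (3 * l + 2) = L ^ (3 * l + 1) * L := by ring
      have h7 : 0 < L ^ (3 * l + 1) := by positivity
      nlinarith
    have h8 : L ^ (3 * l + 2) ≤ L ^ (3 * (l + 1)) := pow_le_pow_right₀ hL1 (by omega)
    rw [hsplit]
    refine (norm_add_le _ _).trans ((add_le_add h1 h3).trans ?_)
    rw [← add_mul]
    exact mul_le_mul_of_nonneg_right (by linarith) (norm_nonneg _)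

theorem pf_ITCS (h : T_ITAS) : T_ITCS := by
  intro d L Φ Φ' hc l b x y r hx hy
  have hL2 := hc.two
  have hL0 : 0 < L := by linarith
  obtain ⟨hsm, -, -, -, -⟩ := h d L Φ Φ' hc l
  have hd : Differentiable ℝ (Cmp Φ l) := hsm.differentiable (by norm_num)
  have hlip := lip_fderiv_cmp h d L Φ Φ' hc l
  refine Convex.norm_image_sub_le_of_norm_fderiv_le' (𝕜 := ℝ) (s := closedBall b r) (f := Cmp Φ l)
    (φ := fderiv ℝ (Cmp Φ l) b) (C := L ^ (3 * l) * r) (fun z _ => hd z) (fun z hz => ?_)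
    (convex_closedBall b r) ?_ ?_
  · refine (hlip z b).trans ?_
    have h1 : ‖z - b‖ ≤ r := by
      rw [← dist_eq_norm]
      exact hz
    exact mul_le_mul_of_nonneg_left h1 (by positivity)
  · rw [mem_closedBall, dist_eq_norm]
    exact hy
  · rw [mem_closedBall, dist_eq_norm]
    exact hx

end Pool.Agent.H13.CM
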